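import Pool.Agent.Q94.F7M

/-!
# Reducing Agler subspaces for inner functions on the bidisk (MP_f7d35b_an)

Q1 is answered in the affirmative for every inner function on the bidisk, rational or not:
at least one of the compressed shifts `S_{z_1}`, `S_{z_2}` has reducing Agler subspaces if and only
if the inner function is a product of two one variable inner functions.

Definitions used (in `Pool/Agent/Q94/F7A.lean`, `F7G.lean`, `F7H.lean`, `F7J.lean`, `F7L.lean`):

* `H2`: the Hardy space of the bidisk, as square summable families of Taylor coefficients;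
  `ev f z` is the value of the function of `f` at the point `z` of the bidisk `D2`;
* `IsInner2 θ`: `θ` is holomorphic and bounded on the open bidisk `bidisk`, and for almost every
  point of the torus the radial limit exists and has modulus one; `IsInner1` is the one variable
  version;
* `Kmod θ`: the orthogonal complement of `θ H^2`; `cshift θ j f` is the projection onto `Kmod θ`
  of `z_1 f` (`j = 0`) or `z_2 f` (`j = 1`); `IsAdj θ j f g`: the element `g` of `Kmod θ` is the
  image of `f` under the adjoint of this compressed shift of `Kmod θ`;
* `InRKHS k f`: `f` belongs to the reproducing kernel Hilbert space (the class `RKHS` of Mathlib)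
  with kernel `k`;
* `IsAgler θ K1 K2`: `K1`, `K2` are positive kernels with the Agler identity;
  `AglerS1`, `AglerS2` are the two Agler subspaces, viewed inside `Kmod θ` (the theorem
  `F7.agler_inside` of `F7L.lean` checks that nothing is lost: every function of the two
  reproducing kernel spaces is the function of an element of `Kmod θ`);
* `HasReducing θ j`: for some pair of Agler kernels both Agler subspaces are invariant under
  `cshift θ j` and its adjoint; `HasClosedReducing θ j`: moreover both are closed.
-/

namespace Pool.Agent.Results.MP_f7d35b_an.ReducingAglerSubspaces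

open F7

/-- For every inner function `θ` on the bidisk, rational or not: `S_{z_1}` or `S_{z_2}` has
reducing Agler subspaces if and only if `θ` is a product of two one variable inner functions.
The same holds when the reducing Agler subspaces are required to be closed. -/
theorem result (θ : ℂ × ℂ → ℂ) (hθ : IsInner2 θ) :
    ((HasReducing θ 0 ∨ HasReducing θ 1) ↔
      ∃ φ ψ : ℂ → ℂ, IsInner1 φ ∧ IsInner1 ψ ∧ ∀ z ∈ bidisk, θ z = φ z.1 * ψ z.2) ∧
    ((HasClosedReducing θ 0 ∨ HasClosedReducing θ 1) ↔
      ∃ φ ψ : ℂ → ℂ, IsInner1 φ ∧ IsInner1 ψ ∧ ∀ z ∈ bidisk, θ z = φ z.1 * ψ z.2) := by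
  have weak : ∀ j, HasClosedReducing θ j → HasReducing θ j := by
    rintro j ⟨K1, K2, h1, h2, h3, -, -⟩
    exact ⟨K1, K2, h1, h2, h3⟩
  refine ⟨⟨?_, ?_⟩, ⟨?_, ?_⟩⟩
  · rintro (h | h)
    · exact forward hθ 0 h
    · exact forward hθ 1 h
  · rintro ⟨φ, ψ, hφ, hψ, hprod⟩
    exact Or.inl (weak 0 (backward hθ hφ hψ hprod))
  · rintro (h | h)
    · exact forward hθ 0 (weak 0 h)
    · exact forward hθ 1 (weak 1 h)
  · rintro ⟨φ, ψ, hφ, hψ, hprod⟩
    exact Or.inl (backward hθ hφ hψ hprod)

end Pool.Agent.Results.MP_f7d35b_an.ReducingAglerSubspaces
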